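import Pool.Agent.H212.CS.Final

/-!
# Coincidence sequences of two normalised univalent functions

Q1 of MP_8199af_an asks for which sequences `(z_n)` of distinct points of the unit disc there are two different functions
`f, g` of the class `S` with `f (z_n) = g (z_n)` for all `n`.  We prove a sufficient condition on the moduli alone (the arguments of
the `z_n` are arbitrary, so the points may accumulate at every point of the unit circle):

  `∑ log log (16/(1-|z_n|)) / log (16/(1-|z_n|)) < ∞`,

and more generally: there are `m_n > 0` with `∑ m_n < ∞` and `∑ (1-|z_n|)^{m_n} / m_n < ∞`.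

Proof. On the upper half plane (`c_n` = images of the `z_n`, `s_n = -i(ζ - conj c_n)`, `ρ_n = 1+|c_n|`) let
`q = exp (-∑ μ_n log (s_n/ρ_n))`, `∑ μ_n ≤ 1/4`. A primitive `h` of `q` is univalent with convex images of the half planes
`Im ζ > y` (supporting lines and properness). Let `u = w² G(w)`, `w = (ζ-i)/(ζ+i)`, `G` a Blaschke product with zeros `z_n`. Then
`|u'| < |q| Re P` for `P = 6 + ∑ A_n s_n^{-(1-μ_n/2)}`, so the primitives of `q P + u'` and `q P - u'` are close-to-convex, hence
univalent; their difference `2u` vanishes at all the `z_n`, and doubly at the origin.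
-/

set_option autoImplicit false

namespace Pool.Agent.Results.MP_8199af_an.LogLogCoincidence

/-- The open unit disc. -/
def disc : Set ℂ := {w | ‖w‖ < 1}

/-- The class `S`: analytic and injective on the disc, `f(0) = 0`, `f'(0) = 1`. -/
def ClassS (f : ℂ → ℂ) : Prop :=
  DifferentiableOn ℂ f disc ∧ Set.InjOn f disc ∧ f 0 = 0 ∧ deriv f 0 = 1

/-- A coincidence sequence for `S`: pairwise distinct points of the disc at which two functions of `S`, different on the
disc, agree. -/
def IsCoincidenceSequence (z : ℕ → ℂ) : Prop :=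
  Function.Injective z ∧ (∀ n, z n ∈ disc) ∧
    ∃ f g : ℂ → ℂ, ClassS f ∧ ClassS g ∧ (∃ w ∈ disc, f w ≠ g w) ∧ ∀ n, f (z n) = g (z n)

lemma disc_eq : disc = Metric.ball (0 : ℂ) 1 := by
  ext w; simp [disc]

lemma of_coin {z : ℕ → ℂ} (hinj : Function.Injective z) (hz : ∀ n, z n ∈ disc)
    (h : Pool.Agent.H212.CS.Coin z) : IsCoincidenceSequence z := by
  obtain ⟨f, g, hf, hg, hne, he⟩ := h
  refine ⟨hinj, hz, f, g, ?_, ?_, ?_, he⟩
  · simpa [ClassS, Pool.Agent.H212.CS.ClassS, disc_eq] using hf
  · simpa [ClassS, Pool.Agent.H212.CS.ClassS, disc_eq] using hg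
  · simpa [disc_eq] using hne

/-- Every sequence of distinct points of the disc with `∑ log log (16/(1-|z_n|)) / log (16/(1-|z_n|)) < ∞` is a coincidence
sequence for `S`; more generally so is every sequence of distinct points of the disc for which there are `m_n > 0` with `∑ m_n < ∞` and
`∑ (1-|z_n|)^{m_n}/m_n < ∞`. -/
theorem result :
    (∀ z : ℕ → ℂ, Function.Injective z → (∀ n, z n ∈ disc) →
      Summable (fun n => Real.log (Real.log (16 / (1 - ‖z n‖))) / Real.log (16 / (1 - ‖z n‖))) →
      IsCoincidenceSequence z) ∧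
    (∀ (z : ℕ → ℂ) (m : ℕ → ℝ), Function.Injective z → (∀ n, z n ∈ disc) → (∀ n, 0 < m n) → Summable m →
      Summable (fun n => (1 - ‖z n‖) ^ (m n) / m n) → IsCoincidenceSequence z) :=
  ⟨fun z hinj hz hs => of_coin hinj hz (Pool.Agent.H212.CS.main2 z hz hs),
    fun z m hinj hz hm hs hc => of_coin hinj hz (Pool.Agent.H212.CS.main1 z m hz hm hs hc)⟩

end Pool.Agent.Results.MP_8199af_an.LogLogCoincidence
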